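import Pool.Agent.K3h27.PP.Stm

set_option autoImplicit false

open Finset

namespace Pool.Agent.K3h37.PP

open Pool.Agent.K3h27.PP

open Classical in
/-- Ordered triples of distinct elements. -/
noncomputable def D3 {V : Type} (S : Finset V) : Finset (V × V × V) :=
  (S ×ˢ S ×ˢ S).filter fun p => p.1 ≠ p.2.1 ∧ p.1 ≠ p.2.2 ∧ p.2.1 ≠ p.2.2

theorem card_D3 {V : Type} (S : Finset V) :
    (D3 S).card ≤ S.card * ((S.card - 1) * (S.card - 2)) := by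
  classical
  have h1 : (S.sigma fun a => (S.erase a).sigma fun b => (S.erase a).erase b).card =
      S.card * ((S.card - 1) * (S.card - 2)) := by
    rw [Finset.card_sigma, Finset.sum_const_nat (m := (S.card - 1) * (S.card - 2))]
    intro a ha
    rw [Finset.card_sigma, Finset.sum_const_nat (m := S.card - 2), Finset.card_erase_of_mem ha]
    intro b hb
    rw [Finset.card_erase_of_mem hb, Finset.card_erase_of_mem ha]
    omega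
  rw [← h1]
  refine Finset.card_le_card_of_injOn
    (fun p => (⟨p.1, ⟨p.2.1, p.2.2⟩⟩ : (_ : V) × (_ : V) × V)) ?_ ?_
  · rintro ⟨a, b, c⟩ h
    simp only [D3, Finset.coe_filter, Finset.mem_product, Set.mem_ofPred_eq] at h
    obtain ⟨⟨ha, hb, hc⟩, hab, hac, hbc⟩ := h
    simp only [Finset.coe_sigma, Set.mem_sigma_iff, Finset.mem_coe, Finset.mem_erase]
    exact ⟨ha, ⟨hab.symm, hb⟩, hbc.symm, hac.symm, hc⟩
  · rintro ⟨a, b, c⟩ - ⟨a', b', c'⟩ - h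
    simp only [Sigma.mk.injEq, heq_eq_eq] at h
    obtain ⟨h1, h2, h3⟩ := h
    subst h1 h2 h3
    rfl

/-- At most three elements. -/
theorem no4 {V : Type} {X : Finset V} (hX : X.card = 3) {a b c d : V} (ha : a ∈ X) (hb : b ∈ X)
    (hc : c ∈ X) (hd : d ∈ X) (h1 : a ≠ b) (h2 : a ≠ c) (h3 : a ≠ d) (h4 : b ≠ c) (h5 : b ≠ d)
    (h6 : c ≠ d) : False := by
  classical
  have h7 : ({a, b, c, d} : Finset V) ⊆ X := by
    intro x hx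
    simp only [Finset.mem_insert, Finset.mem_singleton] at hx
    rcases hx with rfl | rfl | rfl | rfl <;> assumption
  have h8 : ({a, b, c, d} : Finset V).card = 4 := by
    rw [Finset.card_insert_of_notMem, Finset.card_insert_of_notMem, Finset.card_insert_of_notMem,
      Finset.card_singleton] <;> simp [*]
  have := Finset.card_le_card h7
  omega

theorem pat {V : Type} {X : Finset V} (hX : X.card = 3) {a b c d e f : V}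
    (hn : [a, b, c, d, e, f].Nodup) (h1 : a ∈ X ∨ b ∈ X) (h2 : b ∈ X ∨ c ∈ X) (h3 : c ∈ X ∨ d ∈ X)
    (h4 : d ∈ X ∨ e ∈ X) (h5 : e ∈ X ∨ f ∈ X) :
    (a ∉ X ∧ b ∈ X ∧ c ∉ X ∧ d ∈ X ∧ e ∉ X ∧ f ∈ X) ∨
    (a ∉ X ∧ b ∈ X ∧ c ∉ X ∧ d ∈ X ∧ e ∈ X ∧ f ∉ X) ∨
    (a ∉ X ∧ b ∈ X ∧ c ∈ X ∧ d ∉ X ∧ e ∈ X ∧ f ∉ X) ∨
    (a ∈ X ∧ b ∉ X ∧ c ∈ X ∧ d ∉ X ∧ e ∈ X ∧ f ∉ X) := by
  classical
  simp only [List.nodup_cons, List.mem_cons, List.not_mem_nil, or_false, not_or, List.nodup_nil,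
    and_true, not_false_eq_true] at hn
  obtain ⟨⟨n1, n2, n3, n4, n5⟩, ⟨n6, n7, n8, n9⟩, ⟨n10, n11, n12⟩, ⟨n13, n14⟩, n15⟩ := hn
  have m1 : ¬ (a ∈ X ∧ b ∈ X ∧ c ∈ X ∧ d ∈ X) := fun h =>
    no4 hX h.1 h.2.1 h.2.2.1 h.2.2.2 n1 n2 n3 n6 n7 n10
  have m2 : ¬ (a ∈ X ∧ b ∈ X ∧ c ∈ X ∧ e ∈ X) := fun h =>
    no4 hX h.1 h.2.1 h.2.2.1 h.2.2.2 n1 n2 n4 n6 n8 n11
  have m3 : ¬ (a ∈ X ∧ b ∈ X ∧ c ∈ X ∧ f ∈ X) := fun h =>
    no4 hX h.1 h.2.1 h.2.2.1 h.2.2.2 n1 n2 n5 n6 n9 n12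
  have m4 : ¬ (a ∈ X ∧ b ∈ X ∧ d ∈ X ∧ e ∈ X) := fun h =>
    no4 hX h.1 h.2.1 h.2.2.1 h.2.2.2 n1 n3 n4 n7 n8 n13
  have m5 : ¬ (a ∈ X ∧ b ∈ X ∧ d ∈ X ∧ f ∈ X) := fun h =>
    no4 hX h.1 h.2.1 h.2.2.1 h.2.2.2 n1 n3 n5 n7 n9 n14
  have m6 : ¬ (a ∈ X ∧ b ∈ X ∧ e ∈ X ∧ f ∈ X) := fun h =>
    no4 hX h.1 h.2.1 h.2.2.1 h.2.2.2 n1 n4 n5 n8 n9 n15
  have m7 : ¬ (a ∈ X ∧ c ∈ X ∧ d ∈ X ∧ e ∈ X) := fun h =>
    no4 hX h.1 h.2.1 h.2.2.1 h.2.2.2 n2 n3 n4 n10 n11 n13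
  have m8 : ¬ (a ∈ X ∧ c ∈ X ∧ d ∈ X ∧ f ∈ X) := fun h =>
    no4 hX h.1 h.2.1 h.2.2.1 h.2.2.2 n2 n3 n5 n10 n12 n14
  have m9 : ¬ (a ∈ X ∧ c ∈ X ∧ e ∈ X ∧ f ∈ X) := fun h =>
    no4 hX h.1 h.2.1 h.2.2.1 h.2.2.2 n2 n4 n5 n11 n12 n15
  have m10 : ¬ (a ∈ X ∧ d ∈ X ∧ e ∈ X ∧ f ∈ X) := fun h =>
    no4 hX h.1 h.2.1 h.2.2.1 h.2.2.2 n3 n4 n5 n13 n14 n15
  have m11 : ¬ (b ∈ X ∧ c ∈ X ∧ d ∈ X ∧ e ∈ X) := fun h =>
    no4 hX h.1 h.2.1 h.2.2.1 h.2.2.2 n6 n7 n8 n10 n11 n13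
  have m12 : ¬ (b ∈ X ∧ c ∈ X ∧ d ∈ X ∧ f ∈ X) := fun h =>
    no4 hX h.1 h.2.1 h.2.2.1 h.2.2.2 n6 n7 n9 n10 n12 n14
  have m13 : ¬ (b ∈ X ∧ c ∈ X ∧ e ∈ X ∧ f ∈ X) := fun h =>
    no4 hX h.1 h.2.1 h.2.2.1 h.2.2.2 n6 n8 n9 n11 n12 n15
  have m14 : ¬ (b ∈ X ∧ d ∈ X ∧ e ∈ X ∧ f ∈ X) := fun h =>
    no4 hX h.1 h.2.1 h.2.2.1 h.2.2.2 n7 n8 n9 n13 n14 n15
  have m15 : ¬ (c ∈ X ∧ d ∈ X ∧ e ∈ X ∧ f ∈ X) := fun h =>
    no4 hX h.1 h.2.1 h.2.2.1 h.2.2.2 n10 n11 n12 n13 n14 n15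
  clear n1 n2 n3 n4 n5 n6 n7 n8 n9 n10 n11 n12 n13 n14 n15 hX
  by_cases ka : a ∈ X <;> by_cases kb : b ∈ X <;> by_cases kc : c ∈ X <;>
    by_cases kd : d ∈ X <;> by_cases ke : e ∈ X <;> by_cases kf : f ∈ X <;>
    simp only [ka, kb, kc, kd, ke, kf, true_and, and_true, not_true_eq_false, not_false_eq_true,
      false_or, or_false, or_true, true_or, and_false, false_and, or_self, and_self] at * 

/-- The membership in `P6`, unfolded. -/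
theorem mem_P6 {V : Type} {G : SimpleGraph V} {W : Finset V} {a b c d e f : V} :
    (a, b, c, d, e, f) ∈ P6 G W ↔ (a ∈ W ∧ b ∈ W ∧ c ∈ W ∧ d ∈ W ∧ e ∈ W ∧ f ∈ W) ∧
      [a, b, c, d, e, f].Nodup ∧ G.Adj a b ∧ G.Adj b c ∧ G.Adj c d ∧ G.Adj d e ∧ G.Adj e f := by
  classical
  simp only [P6, Finset.mem_filter, Finset.mem_product]

theorem t_COV : S_COV := by
  classical
  intro V G W X hXW hX hcov
  have hm : (W \ X).card = W.card - 3 := by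
    rw [Finset.card_sdiff_of_subset hXW, hX]
  have hD : (D3 X ×ˢ D3 (W \ X)).card ≤
      6 * ((W.card - 3) * ((W.card - 4) * (W.card - 5))) := by
    rw [Finset.card_product]
    have h1 := card_D3 X
    have h2 := card_D3 (W \ X)
    rw [hX] at h1
    rw [hm] at h2
    have h3 : W.card - 3 - 1 = W.card - 4 := by omega
    have h4 : W.card - 3 - 2 = W.card - 5 := by omega
    rw [h3, h4] at h2
    exact Nat.mul_le_mul h1 h2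
  -- the four patterns
  have key : ∀ (T : Finset (V × V × V × V × V × V))
      (F : V × V × V × V × V × V → (V × V × V) × (V × V × V)),
      (∀ p ∈ T, F p ∈ D3 X ×ˢ D3 (W \ X)) → (∀ p q, F p = F q → p = q) →
      T.card ≤ 6 * ((W.card - 3) * ((W.card - 4) * (W.card - 5))) := by
    intro T F h1 h2
    exact (Finset.card_le_card_of_injOn F (fun p hp => h1 p hp)
      (fun p _ q _ h => h2 p q h)).trans hD
  let T1 := (P6 G W).filter fun p => p.1 ∉ X ∧ p.2.1 ∈ X ∧ p.2.2.1 ∉ X ∧ p.2.2.2.1 ∈ X ∧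
    p.2.2.2.2.1 ∉ X ∧ p.2.2.2.2.2 ∈ X
  let T2 := (P6 G W).filter fun p => p.1 ∉ X ∧ p.2.1 ∈ X ∧ p.2.2.1 ∉ X ∧ p.2.2.2.1 ∈ X ∧
    p.2.2.2.2.1 ∈ X ∧ p.2.2.2.2.2 ∉ X
  let T3 := (P6 G W).filter fun p => p.1 ∉ X ∧ p.2.1 ∈ X ∧ p.2.2.1 ∈ X ∧ p.2.2.2.1 ∉ X ∧
    p.2.2.2.2.1 ∈ X ∧ p.2.2.2.2.2 ∉ X
  let T4 := (P6 G W).filter fun p => p.1 ∈ X ∧ p.2.1 ∉ X ∧ p.2.2.1 ∈ X ∧ p.2.2.2.1 ∉ X ∧
    p.2.2.2.2.1 ∈ X ∧ p.2.2.2.2.2 ∉ X
  have hsub : P6 G W ⊆ T1 ∪ T2 ∪ T3 ∪ T4 := by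
    rintro ⟨a, b, c, d, e, f⟩ hp
    obtain ⟨⟨ha, hb, hc, hd, he, hf⟩, hn, h1, h2, h3, h4, h5⟩ := mem_P6.1 hp
    simp only [T1, T2, T3, T4, Finset.mem_union, Finset.mem_filter]
    rcases pat hX hn (hcov a ha b hb h1) (hcov b hb c hc h2) (hcov c hc d hd h3)
      (hcov d hd e he h4) (hcov e he f hf h5) with h | h | h | h
    · exact Or.inl (Or.inl (Or.inl ⟨hp, h⟩))
    · exact Or.inl (Or.inl (Or.inr ⟨hp, h⟩))
    · exact Or.inl (Or.inr ⟨hp, h⟩)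
    · exact Or.inr ⟨hp, h⟩
  have b1 : T1.card ≤ 6 * ((W.card - 3) * ((W.card - 4) * (W.card - 5))) := by
    refine key T1 (fun p => ((p.2.1, p.2.2.2.1, p.2.2.2.2.2), (p.1, p.2.2.1, p.2.2.2.2.1))) ?_ ?_
    · rintro ⟨a, b, c, d, e, f⟩ hp
      obtain ⟨hp, k1, k2, k3, k4, k5, k6⟩ := Finset.mem_filter.1 hp
      obtain ⟨⟨ha, hb, hc, hd, he, hf⟩, hn, -⟩ := mem_P6.1 hp
      simp only [List.nodup_cons, List.mem_cons, List.not_mem_nil, or_false, not_or,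
        List.nodup_nil, and_true, not_false_eq_true] at hn
      simp only [D3, Finset.mem_product, Finset.mem_filter, Finset.mem_sdiff]
      tauto
    · rintro ⟨a, b, c, d, e, f⟩ ⟨a', b', c', d', e', f'⟩ h
      simp only [Prod.mk.injEq] at h ⊢
      tauto
  have b2 : T2.card ≤ 6 * ((W.card - 3) * ((W.card - 4) * (W.card - 5))) := by
    refine key T2 (fun p => ((p.2.1, p.2.2.2.1, p.2.2.2.2.1), (p.1, p.2.2.1, p.2.2.2.2.2))) ?_ ?_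
    · rintro ⟨a, b, c, d, e, f⟩ hp
      obtain ⟨hp, k1, k2, k3, k4, k5, k6⟩ := Finset.mem_filter.1 hp
      obtain ⟨⟨ha, hb, hc, hd, he, hf⟩, hn, -⟩ := mem_P6.1 hp
      simp only [List.nodup_cons, List.mem_cons, List.not_mem_nil, or_false, not_or,
        List.nodup_nil, and_true, not_false_eq_true] at hn
      simp only [D3, Finset.mem_product, Finset.mem_filter, Finset.mem_sdiff]
      tauto
    · rintro ⟨a, b, c, d, e, f⟩ ⟨a', b', c', d', e', f'⟩ h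
      simp only [Prod.mk.injEq] at h ⊢
      tauto
  have b3 : T3.card ≤ 6 * ((W.card - 3) * ((W.card - 4) * (W.card - 5))) := by
    refine key T3 (fun p => ((p.2.1, p.2.2.1, p.2.2.2.2.1), (p.1, p.2.2.2.1, p.2.2.2.2.2))) ?_ ?_
    · rintro ⟨a, b, c, d, e, f⟩ hp
      obtain ⟨hp, k1, k2, k3, k4, k5, k6⟩ := Finset.mem_filter.1 hp
      obtain ⟨⟨ha, hb, hc, hd, he, hf⟩, hn, -⟩ := mem_P6.1 hp
      simp only [List.nodup_cons, List.mem_cons, List.not_mem_nil, or_false, not_or,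
        List.nodup_nil, and_true, not_false_eq_true] at hn
      simp only [D3, Finset.mem_product, Finset.mem_filter, Finset.mem_sdiff]
      tauto
    · rintro ⟨a, b, c, d, e, f⟩ ⟨a', b', c', d', e', f'⟩ h
      simp only [Prod.mk.injEq] at h ⊢
      tauto
  have b4 : T4.card ≤ 6 * ((W.card - 3) * ((W.card - 4) * (W.card - 5))) := by
    refine key T4 (fun p => ((p.1, p.2.2.1, p.2.2.2.2.1), (p.2.1, p.2.2.2.1, p.2.2.2.2.2))) ?_ ?_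
    · rintro ⟨a, b, c, d, e, f⟩ hp
      obtain ⟨hp, k1, k2, k3, k4, k5, k6⟩ := Finset.mem_filter.1 hp
      obtain ⟨⟨ha, hb, hc, hd, he, hf⟩, hn, -⟩ := mem_P6.1 hp
      simp only [List.nodup_cons, List.mem_cons, List.not_mem_nil, or_false, not_or,
        List.nodup_nil, and_true, not_false_eq_true] at hn
      simp only [D3, Finset.mem_product, Finset.mem_filter, Finset.mem_sdiff]
      tauto
    · rintro ⟨a, b, c, d, e, f⟩ ⟨a', b', c', d', e', f'⟩ h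
      simp only [Prod.mk.injEq] at h ⊢
      tauto
  have h1 := Finset.card_le_card hsub
  have h2 := Finset.card_union_le (T1 ∪ T2 ∪ T3) T4
  have h3 := Finset.card_union_le (T1 ∪ T2) T3
  have h4 := Finset.card_union_le T1 T2
  have h5 : 24 * (W.card - 3) * (W.card - 4) * (W.card - 5) =
      4 * (6 * ((W.card - 3) * ((W.card - 4) * (W.card - 5)))) := by ring
  omega

end Pool.Agent.K3h37.PP
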